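import Pool.Agent.H60.CM.Basic

/-!
# BPC: the boundary is a circle
-/

set_option autoImplicit false

open Set Function MeasureTheory Filter Topology
open scoped Manifold ContDiff Matrix
open Pool.Agent.H60.CM

namespace Pool.Agent.H58.CM

lemma dot3 (y : V3) : y ⬝ᵥ y = y 0 ^ 2 + y 1 ^ 2 + y 2 ^ 2 := by
  simp only [Matrix.vec3_dotProduct]
  ring

/-- a parametrization of the circle -/
noncomputable def cpar (r : ℝ) (t : ℝ) : V3 := ![r * Real.cos t, r * Real.sin t, 0]

lemma cpar_cont (r : ℝ) : Continuous (cpar r) := by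
  refine continuous_pi fun i => ?_
  fin_cases i
  · exact continuous_const.mul Real.continuous_cos
  · exact continuous_const.mul Real.continuous_sin
  · exact continuous_const

lemma cpar_mem (r t : ℝ) : cpar r t ∈ circ r := by
  refine ⟨rfl, ?_⟩
  rw [dot3]
  have h0 : cpar r t 0 = r * Real.cos t := rfl
  have h1 : cpar r t 1 = r * Real.sin t := rfl
  have h2 : cpar r t 2 = 0 := rfl
  rw [h0, h1, h2]
  have := Real.sin_sq_add_cos_sq t
  linear_combination r ^ 2 * this

lemma circ_par {r : ℝ} (hr : 0 < r) {y : V3} (hy : y ∈ circ r) :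
    ∃ t, -Real.pi < t ∧ t ≤ Real.pi ∧ cpar r t = y := by
  obtain ⟨h2, h3⟩ := hy
  rw [dot3, h2] at h3
  let z : ℂ := ⟨y 0, y 1⟩
  have hz : ‖z‖ = r := by
    rw [Complex.norm_def, Complex.normSq_mk]
    rw [show y 0 * y 0 + y 1 * y 1 = r ^ 2 by linarith]
    exact Real.sqrt_sq hr.le
  have hz0 : z ≠ 0 := by
    intro h
    rw [h, norm_zero] at hz
    exact hr.ne hz
  refine ⟨Complex.arg z, Complex.neg_pi_lt_arg z, Complex.arg_le_pi z, ?_⟩
  funext i
  fin_cases i
  · show r * Real.cos (Complex.arg z) = y 0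
    rw [Complex.cos_arg hz0, hz]
    field_simp
    rfl
  · show r * Real.sin (Complex.arg z) = y 1
    rw [Complex.sin_arg, hz]
    field_simp
    rfl
  · exact h2.symm

lemma circ_conn {r : ℝ} (hr : 0 < r) : IsPreconnected (circ r) := by
  have h : circ r = cpar r '' univ := by
    ext y
    constructor
    · intro hy
      obtain ⟨t, -, -, ht⟩ := circ_par hr hy
      exact ⟨t, mem_univ _, ht⟩
    · rintro ⟨t, -, rfl⟩
      exact cpar_mem r t
  rw [h]
  exact isPreconnected_univ.image _ (cpar_cont r).continuousOn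

lemma circ_conn_pos {r : ℝ} (hr : 0 < r) : IsPreconnected {y | y ∈ circ r ∧ 0 < y 1} := by
  have h : {y | y ∈ circ r ∧ 0 < y 1} = cpar r '' Ioo 0 Real.pi := by
    ext y
    constructor
    · rintro ⟨hy, hy1⟩
      obtain ⟨t, ht1, ht2, rfl⟩ := circ_par hr hy
      have h1 : 0 < r * Real.sin t := hy1
      have h2 : 0 < Real.sin t := pos_of_mul_pos_right h1 hr.le
      refine ⟨t, ⟨?_, ?_⟩, rfl⟩
      · by_contra hcon
        push Not at hcon
        have := Real.sin_nonpos_of_nonpos_of_neg_pi_le hcon ht1.le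
        linarith
      · rcases lt_or_eq_of_le ht2 with h3 | h3
        · exact h3
        · rw [h3, Real.sin_pi] at h2
          exact absurd h2 (lt_irrefl _)
    · rintro ⟨t, ht, rfl⟩
      exact ⟨cpar_mem r t, mul_pos hr (Real.sin_pos_of_pos_of_lt_pi ht.1 ht.2)⟩
  rw [h]
  exact isPreconnected_Ioo.image _ (cpar_cont r).continuousOn

lemma pull_conn (D : Dat) {s : Set V3} (hs : IsPreconnected s) (hsc : s ⊆ circ D.r) :
    IsPreconnected {p | p ∈ D.bd ∧ D.x p ∈ s} := by
  have hbd : IsCompact D.bd := D.bd_closed.isCompact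
  have hcs : CompactSpace D.bd := isCompact_iff_compactSpace.1 hbd
  let f : D.bd → V3 := fun p => D.x p.1
  have hf : Continuous f := (D.smx.cont).comp continuous_subtype_val
  have hcl : IsClosedMap f := hf.isClosedMap
  have hinj : Function.Injective f := by
    intro p q h
    exact Subtype.ext (D.cmc.circle.injOn p.2 q.2 h)
  have hr : s ⊆ range f := by
    intro y hy
    obtain ⟨p, hp, hpy⟩ := D.cmc.circle.surjOn (hsc hy)
    exact ⟨⟨p, hp⟩, hpy⟩
  have h1 := hs.preimage_of_isClosedMap hinj hcl hr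
  have h2 : {p | p ∈ D.bd ∧ D.x p ∈ s} = Subtype.val '' (f ⁻¹' s) := by
    ext p
    constructor
    · rintro ⟨hp, hps⟩
      exact ⟨⟨p, hp⟩, hps, rfl⟩
    · rintro ⟨q, hq, rfl⟩
      exact ⟨q.2, hq⟩
  rw [h2]
  exact h1.image _ continuous_subtype_val.continuousOn

theorem pf_BPC : T_BPC := by
  intro D
  refine ⟨?_, D.bd_closed, ?_, ?_⟩
  · obtain ⟨p, hp, -⟩ := D.cmc.circle.surjOn (cpar_mem D.r 0)
    exact ⟨p, hp⟩
  · have h := pull_conn D (circ_conn D.cmc.r_pos) subset_rfl
    have h2 : {p | p ∈ D.bd ∧ D.x p ∈ circ D.r} = D.bd := by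
      ext p
      exact ⟨fun h => h.1, fun h => ⟨h, D.cmc.circle.mapsTo h⟩⟩
    rw [h2] at h
    exact h
  · have h := pull_conn D (circ_conn_pos D.cmc.r_pos) (fun y hy => hy.1)
    have h2 : {p | p ∈ D.bd ∧ D.x p ∈ {y | y ∈ circ D.r ∧ 0 < y 1}} =
        {p | p ∈ D.bd ∧ 0 < D.x p 1} := by
      ext p
      exact ⟨fun h => ⟨h.1, h.2.2⟩, fun h => ⟨h.1, D.cmc.circle.mapsTo h.1, h.2⟩⟩
    rw [h2] at h
    exact h

end Pool.Agent.H58.CM
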