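import Pool.Agent.H60.CM.Basic

/-!
# PBR: the bracket has integral zero
-/

set_option autoImplicit false

open Set Function MeasureTheory Filter Topology
open scoped Manifold ContDiff Matrix
open Pool.Agent.H60.CM

namespace Pool.Agent.H58.CM

section

variable {S : Type} [TopologicalSpace S] [ChartedSpace (EuclideanHalfSpace 2) S]

lemma br_const0 (x N : S → V3) (f : S → ℝ) (p : S) : br x N (fun _ => 0) f p = 0 := by
  unfold br
  rw [dd_const, dd_const]
  simp [brk]

lemma md_sum {ι : Type} (s : Finset ι) (h : ι → S → ℝ) (p : S) (hh : ∀ i, MD (h i) p) :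
    MD (fun q => ∑ i ∈ s, h i q) p := by
  classical
  induction s using Finset.induction_on with
  | empty => simpa using md_const (0 : ℝ) p
  | insert a s ha ih =>
    have h1 : (fun q => ∑ i ∈ insert a s, h i q) = fun q => h a q + ∑ i ∈ s, h i q := by
      funext q
      rw [Finset.sum_insert ha]
    rw [h1]
    exact (hh a).add ih

lemma br_sum {ι : Type} (s : Finset ι) (x N : S → V3) (f : S → ℝ) (h : ι → S → ℝ) (p : S)
    (hh : ∀ i, MD (h i) p) :
    br x N (fun q => ∑ i ∈ s, h i q) f p = ∑ i ∈ s, br x N (h i) f p := by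
  classical
  induction s using Finset.induction_on with
  | empty =>
    simp only [Finset.sum_empty]
    exact br_const0 x N f p
  | insert a s ha ih =>
    have h1 : (fun q => ∑ i ∈ insert a s, h i q) = fun q => h a q + ∑ i ∈ s, h i q := by
      funext q
      rw [Finset.sum_insert ha]
    rw [h1, br_add (hh a) (md_sum s h p hh), ih, Finset.sum_insert ha]

end

theorem pf_PBR (h1 : T_PB2) (h2 : T_PAT) (h3 : T_CON) : T_PBR := by
  classical
  intro D g b hg hb
  have hK : IsClosed (tsupport g) := isClosed_tsupport g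
  have hp : ∀ p : tsupport g, ∃ (O : Set E2) (ψ : E2 → D.S), D.Pch O ψ ∧ p.1 ∈ ψ '' O := by
    intro p
    obtain ⟨O, ψ, y, hP, hy, hyp, -⟩ := h2 D p.1 D.int (hg.2 p.2) D.int_open (hg.2 p.2)
    exact ⟨O, ψ, hP, y, hy, hyp⟩
  choose O ψ hP hpO using hp
  have hopen : ∀ p, IsOpen (ψ p '' O p) := fun p => (hP p).im (O p) subset_rfl (hP p).isOpen
  obtain ⟨t, ht⟩ := hK.isCompact.elim_finite_subcover (fun p : tsupport g => ψ p '' O p) hopen
    (fun p hp => mem_iUnion.2 ⟨⟨p, hp⟩, hpO ⟨p, hp⟩⟩)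
  obtain ⟨f, hf⟩ := SmoothPartitionOfUnity.exists_isSubordinate (𝓡∂ 2) hK
    (fun p : t => ψ p.1 '' O p.1) (fun p => hopen p.1) (fun q hq => by
      obtain ⟨p, hpt, hq2⟩ := mem_iUnion₂.1 (ht hq)
      exact mem_iUnion.2 ⟨⟨p, hpt⟩, hq2⟩)
  have hfT : ∀ i : t, Tst (ψ i.1 '' O i.1) (fun q => f i q * g q) := by
    intro i
    refine Tst.mul_right (D := D) ⟨(f i).contMDiff, hf i⟩ hg.1
  have hgs : g = fun q => ∑ i : t, f i q * g q := by
    funext q
    rw [← Finset.sum_mul]
    by_cases hq : q ∈ tsupport g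
    · have h4 := f.sum_eq_one hq
      rw [finsum_eq_sum_of_fintype] at h4
      rw [h4, one_mul]
    · rw [image_eq_zero_of_notMem_tsupport hq, mul_zero]
  have hmd : ∀ p, ∀ i : t, MD (fun q => f i q * g q) p := fun p i => (hfT i).md p
  have hbr : ∀ p, br D.x D.N g b p = ∑ i : t, br D.x D.N (fun q => f i q * g q) b p := by
    intro p
    have h5 := br_sum (Finset.univ : Finset t) D.x D.N b (fun i q => f i q * g q) p (hmd p)
    rw [← h5, ← hgs]
  simp only [hbr]
  rw [integral_finsetSum]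
  · refine Finset.sum_eq_zero fun i _ => ?_
    exact h1 D (O i.1) (ψ i.1) (hP i.1) _ b (hfT i) hb
  · intro i _
    exact D.cont_int (h3 D _ b (hfT i).1 hb).2

end Pool.Agent.H58.CM
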