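import Pool.Agent.H60.CM.Basic

/-!
# TDI: the symmetry preserves the scalar products of gradients
-/

set_option autoImplicit false

open Set Function MeasureTheory Filter Topology
open scoped Manifold ContDiff Matrix
open Pool.Agent.H60.CM

namespace Pool.Agent.H58.CM

lemma bil_mir (a0 a1 : V3) (f0 f1 g0 g1 : ℝ) :
    bil (mir a0) (mir a1) f0 f1 g0 g1 = bil a0 a1 f0 f1 g0 g1 := by
  unfold bil mir
  have h1 : ∀ (a b c d : V3) (s t u v : ℝ),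
      (s • (![a 0, -a 1, a 2] : V3) - t • (![b 0, -b 1, b 2] : V3)) ⬝ᵥ
        (u • (![c 0, -c 1, c 2] : V3) - v • (![d 0, -d 1, d 2] : V3)) =
      (s • a - t • b) ⬝ᵥ (u • c - v • d) := by
    intro a b c d s t u v
    simp only [Matrix.vec3_dotProduct, Pi.sub_apply, Pi.smul_apply, smul_eq_mul,
      Matrix.cons_val_zero, Matrix.cons_val_one, Matrix.cons_val]
    ring
  have h2 : ((![a0 0, -a0 1, a0 2] : V3) ⨯₃ (![a1 0, -a1 1, a1 2] : V3)) ⬝ᵥ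
      ((![a0 0, -a0 1, a0 2] : V3) ⨯₃ (![a1 0, -a1 1, a1 2] : V3)) =
      (a0 ⨯₃ a1) ⬝ᵥ (a0 ⨯₃ a1) := by
    simp only [Matrix.vec3_dotProduct, cross_apply, Matrix.cons_val_zero, Matrix.cons_val_one,
      Matrix.cons_val]
    ring
  rw [h1, h2]

lemma cross_mir (a0 a1 : V3) : (mir a0 ⨯₃ mir a1) ⬝ᵥ (mir a0 ⨯₃ mir a1) =
    (a0 ⨯₃ a1) ⬝ᵥ (a0 ⨯₃ a1) := by
  unfold mir
  simp only [Matrix.vec3_dotProduct, cross_apply, Matrix.cons_val_zero, Matrix.cons_val_one,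
    Matrix.cons_val]
  ring

lemma cross_comb (a0 a1 : V3) (m00 m01 m10 m11 : ℝ) (h : m00 * m11 - m01 * m10 = 0) :
    (m00 • a0 + m01 • a1) ⨯₃ (m10 • a0 + m11 • a1) = 0 := by
  have h1 : (m00 • a0 + m01 • a1) ⨯₃ (m10 • a0 + m11 • a1) =
      (m00 * m11 - m01 * m10) • (a0 ⨯₃ a1) := by
    simp only [cross_apply, Pi.add_apply, Pi.smul_apply, smul_eq_mul]
    funext i
    fin_cases i <;>
    · simp only [Pi.smul_apply, smul_eq_mul, Fin.zero_eta, Fin.mk_one, Fin.reduceFinMk,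
        Matrix.cons_val_zero, Matrix.cons_val_one, Matrix.cons_val]
      ring
  rw [h1, h, zero_smul]

/-- the reflection as a linear map -/
noncomputable def mirL : V3 →L[ℝ] V3 :=
  ContinuousLinearMap.pi fun i : Fin 3 =>
    (![(1 : ℝ), -1, 1] i) • (ContinuousLinearMap.proj i : V3 →L[ℝ] ℝ)

lemma mirL_eq (y : V3) : mirL y = mir y := by
  funext i
  fin_cases i
  · show (1 : ℝ) * y 0 = y 0
    ring
  · show (-1 : ℝ) * y 1 = -y 1
    ring
  · show (1 : ℝ) * y 2 = y 2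
    ring

lemma ee_sum (v : E2) : v = v 0 • ee 0 + v 1 • ee 1 := by
  ext i
  fin_cases i <;> simp [ee]

/-- the image of the coordinate vector under the derivative of the symmetry -/
noncomputable def tv (Y : Sy) (p : Y.S) (i : Fin 2) : E2 :=
  mfderiv (𝓡∂ 2) (𝓡∂ 2) Y.τ p (ee i)

lemma dd_tau (Y : Sy) {F : Type} [NormedAddCommGroup F] [NormedSpace ℝ F] (f : Y.S → F)
    (hf : Y.Sm f) (p : Y.S) (i : Fin 2) :
    dd (fun q => f (Y.τ q)) p i =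
      tv Y p i 0 • dd f (Y.τ p) 0 + tv Y p i 1 • dd f (Y.τ p) 1 := by
  have hτ : MDifferentiableAt (𝓡∂ 2) (𝓡∂ 2) Y.τ p :=
    (ContMDiff.mdifferentiable Y.τ.contMDiff (by simp)) p
  have h1 : mfderiv (𝓡∂ 2) 𝓘(ℝ, F) (f ∘ Y.τ) p =
      (mfderiv (𝓡∂ 2) 𝓘(ℝ, F) f (Y.τ p)).comp (mfderiv (𝓡∂ 2) (𝓡∂ 2) Y.τ p) :=
    mfderiv_comp p (Dat.Sm.md Y.toDat hf (Y.τ p)) hτ
  have h2 : dd (fun q => f (Y.τ q)) p i =
      (mfderiv (𝓡∂ 2) 𝓘(ℝ, F) f (Y.τ p) : E2 →L[ℝ] F) (tv Y p i) := by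
    unfold dd tv
    have h3 : (fun q => f (Y.τ q)) = f ∘ Y.τ := rfl
    rw [h3, h1]
    rfl
  rw [h2]
  generalize hv : tv Y p i = v
  have h4 := ee_sum v
  have h5 : ∀ L : E2 →L[ℝ] F, L v = v 0 • L (ee 0) + v 1 • L (ee 1) := by
    intro L
    calc L v = L (v 0 • ee 0 + v 1 • ee 1) := congrArg L h4
      _ = v 0 • L (ee 0) + v 1 • L (ee 1) := by rw [map_add, map_smul, map_smul]
  exact h5 _

lemma tdi_gr (h1 : T_INV) (Y : Sy) (f g : Y.S → ℝ) (hf : Y.Sm f) (hg : Y.Sm g) (p : Y.S) :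
    gr Y.x (fun q => f (Y.τ q)) (fun q => g (Y.τ q)) p = gr Y.x f g (Y.τ p) := by
  have hx : ∀ i, mir (dd Y.x p i) =
      tv Y p i 0 • dd Y.x (Y.τ p) 0 + tv Y p i 1 • dd Y.x (Y.τ p) 1 := by
    intro i
    have e1 := dd_tau Y Y.x Y.smx p i
    have e2 : (fun q => Y.x (Y.τ q)) = fun q => mirL (Y.x q) := by
      funext q
      rw [mirL_eq]
      exact Y.mirr q
    rw [e2, dd_comp (Dat.Sm.md Y.toDat Y.smx p) mirL.differentiableAt,
      ContinuousLinearMap.fderiv, mirL_eq] at e1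
    exact e1
  have hdet : tv Y p 0 0 * tv Y p 1 1 - tv Y p 0 1 * tv Y p 1 0 ≠ 0 := by
    intro h0
    have e1 := cross_comb (dd Y.x (Y.τ p) 0) (dd Y.x (Y.τ p) 1) _ _ _ _ h0
    rw [← hx 0, ← hx 1] at e1
    have e2 := cross_mir (dd Y.x p 0) (dd Y.x p 1)
    rw [e1, zero_dotProduct] at e2
    exact Y.cmc.imm p (dotProduct_self_eq_zero.1 e2.symm)
  unfold gr
  rw [dd_tau Y f hf p 0, dd_tau Y f hf p 1, dd_tau Y g hg p 0, dd_tau Y g hg p 1,
    ← bil_mir (dd Y.x p 0) (dd Y.x p 1), hx 0, hx 1]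
  simp only [smul_eq_mul]
  exact (h1 _ _ 0 _ _ _ _ _ _ _ _ hdet).1

theorem pf_TDI (h1 : T_INV) (h2 : T_SGN) : T_TDI := by
  intro Y f g hf hg p
  refine ⟨tdi_gr h1 Y f g hf hg p, ?_⟩
  have hrot : ∀ y : V3, rot 0 y = y := by
    intro y
    unfold rot
    funext i
    fin_cases i <;> simp
  have hN : ∀ q, Y.N (Y.τ q) = mir (Y.N q) := by
    intro q
    have h3 := h2 Y.toDat Y.τ 0 (fun q => by rw [hrot]; exact Y.mirr q) q
    rw [hrot] at h3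
    exact h3
  have hNk : ∀ k, Y.Sm (fun q => Y.N q k) := fun k => Dat.Sm.coord Y.toDat Y.smN k
  have hmd : ∀ k, MD (fun q => Y.N q k) p := fun k => Dat.Sm.md Y.toDat (hNk k) p
  have key : ∀ k : Fin 3, ∃ c : ℝ, c * c = 1 ∧
      (fun q => Y.N (Y.τ q) k) = fun q => c * Y.N q k := by
    intro k
    fin_cases k
    · refine ⟨1, by norm_num, ?_⟩
      funext q
      rw [hN]
      show Y.N q 0 = 1 * Y.N q 0
      ring
    · refine ⟨-1, by norm_num, ?_⟩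
      funext q
      rw [hN]
      show -Y.N q 1 = -1 * Y.N q 1
      ring
    · refine ⟨1, by norm_num, ?_⟩
      funext q
      rw [hN]
      show Y.N q 2 = 1 * Y.N q 2
      ring
  unfold sf
  refine Finset.sum_congr rfl fun k _ => ?_
  rw [← tdi_gr h1 Y _ _ (hNk k) (hNk k) p]
  obtain ⟨c, hc, hck⟩ := key k
  rw [hck, gr_const_mul (hmd k), gr_comm, gr_const_mul (hmd k), ← mul_assoc, hc, one_mul]

end Pool.Agent.H58.CM
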